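import Pool.Agent.H79.MC.Targets2

/-!
Polynomial space algorithms for maximum cut: the maximum cut is attained.
-/

set_option autoImplicit false

namespace Pool.Agent.H2.MC2

open Pool.Agent.H79.MC

theorem pf_mcb : T_MCB := by
  intro n G
  have hb : BddAbove (Set.range fun X : Set (Fin n) => cutSize G X) :=
    (Set.finite_range _).bddAbove
  have h1 : ∀ X, cutSize G X ≤ maxCut G := fun X => le_ciSup hb X
  have h2 : ∃ X, cutSize G X = maxCut G := by
    have h3 := Nat.sSup_mem (Set.range_nonempty fun X : Set (Fin n) => cutSize G X) hb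
    obtain ⟨X, hX⟩ := h3
    exact ⟨X, hX⟩
  refine ⟨h1, h2, fun X => ?_⟩
  constructor
  · intro h
    obtain ⟨Y, hY⟩ := h2
    exact le_antisymm (h1 X) (hY ▸ h Y)
  · intro h Y
    rw [h]
    exact h1 Y

end Pool.Agent.H2.MC2
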